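import Pool.Agent.K1H49.PL.Stm

/-!
# The combinatorial induction on shapes
-/

namespace Pool.Agent.K1H6.PL

open Pool.Agent.K1H49.PL

/-- abstract contexts -/
inductive ACx : Type
  | hole : ACx
  | lab (k : Kd) (C : ACx) : ACx
  | sl (C : ACx) (G : AS) : ACx
  | sr (F : AS) (C : ACx) : ACx

def ACx.plug : ACx → AS → AS
  | .hole, X => X
  | .lab k C, X => .lab k (C.plug X)
  | .sl C G, X => .split (C.plug X) G
  | .sr F C, X => .split F (C.plug X)

def ACx.comp : ACx → ACx → ACx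
  | .hole, D => D
  | .lab k C, D => .lab k (C.comp D)
  | .sl C G, D => .sl (C.comp D) G
  | .sr F C, D => .sr F (C.comp D)

theorem plug_comp (C D : ACx) (X : AS) : (C.comp D).plug X = C.plug (D.plug X) := by
  induction C with
  | hole => rfl
  | lab k C ih => simp [ACx.comp, ACx.plug, ih]
  | sl C G ih => simp [ACx.comp, ACx.plug, ih]
  | sr F C ih => simp [ACx.comp, ACx.plug, ih]

def ACx.cx (n : ℕ) : ACx → Ctx Lab
  | .hole => .hole
  | .lab k C => if k.dir then .R k.labs .nil (C.cx n) else .L k.labs (C.cx n) .nil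
  | .sl C G => .L [] (C.cx n) (G.ex n)
  | .sr F C => .R [] (F.ex n) (C.cx n)

theorem ex_plug (n : ℕ) (C : ACx) (X : AS) : (C.plug X).ex n = (C.cx n).plug (X.ex n) := by
  induction C with
  | hole => rfl
  | lab k C ih =>
    simp only [ACx.plug, AS.ex, ACx.cx, ih]
    cases k.dir <;> simp [Ctx.plug]
  | sl C G ih => simp [ACx.plug, AS.ex, ACx.cx, Ctx.plug, ih]
  | sr F C ih => simp [ACx.plug, AS.ex, ACx.cx, Ctx.plug, ih]

theorem ex_iter (n : ℕ) (K : ACx) (k : ℕ) (X : AS) :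
    ((K.plug)^[k] X).ex n = ((K.cx n).plug)^[k] (X.ex n) := by
  induction k with
  | zero => rfl
  | succ k ih => rw [Function.iterate_succ_apply', Function.iterate_succ_apply', ex_plug, ih]

theorem sub_rfl {Λ : Type} (F : Sh Λ) : Sub F F := by
  induction F with
  | nil => exact Sub.nil _
  | node ls l r h1 h2 => exact Sub.node (fun _ h => h) h1 h2

theorem plug_mono {Λ : Type} (C : Ctx Λ) {F F' : Sh Λ} (h : Sub F F') :
    Sub (C.plug F) (C.plug F') := by
  induction C with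
  | hole => exact h
  | L ls C r ih => exact Sub.node (fun _ h => h) ih (sub_rfl _)
  | R ls l C ih => exact Sub.node (fun _ h => h) (sub_rfl _) ih

theorem plug_self {Λ : Type} (C : Ctx Λ) {F F' : Sh Λ} (h : Sub F F') : Sub F (C.plug F') := by
  induction C with
  | hole => exact h
  | L ls C r ih => exact Sub.left ls ih
  | R ls l C ih => exact Sub.right ls ih

theorem split_step {n : ℕ} {H : Sh Lab → Prop} (hH : Cl H) (C K0 K1 : ACx) (F0 F1 : AS)
    (h0 : Sub (F0.ex n) ((K0.plug .nil).ex n)) (h1 : Sub (F1.ex n) ((K1.plug .nil).ex n))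
    (hk : ∀ k : ℕ, H ((C.plug (((K0.comp K1).plug)^[k] .nil)).ex n)) :
    H ((C.plug (.split F0 F1)).ex n) := by
  have h2 := hH.spl (C.cx n) ((K0.comp K1).cx n) (fun k => by
    have := hk k
    rw [ex_plug, ex_iter] at this
    exact this)
  have e : ((K0.comp K1).cx n).plug .nil = (K0.cx n).plug ((K1.cx n).plug .nil) := by
    have e1 := ex_plug n (K0.comp K1) .nil
    rw [plug_comp, ex_plug, ex_plug] at e1
    exact e1.symm
  rw [e] at h2
  rw [ex_plug] at h0 h1
  rw [ex_plug]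
  refine hH.sub (plug_mono _ (Sub.node (fun _ h => h) h0 h1)) (hH.sub (plug_mono _
    (Sub.node (fun _ h => h) (plug_mono _ (Sub.nil _)) (plug_self _ (sub_rfl _)))) h2)

/-! ### height zero -/

/-- no `tt`, no `s` -/
def pl : AS → Prop
  | .nil => True
  | .lab _ F => pl F
  | .split F G => pl F ∧ pl G
  | .tt => False
  | .s => False

/-- the number of splits -/
def ns : AS → ℕ
  | .nil => 0
  | .lab _ F => ns F
  | .split F G => ns F + ns G + 1
  | .tt => 0
  | .s => 0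

theorem pl_rT : ∀ F : AS, F.noS → pl F.rT
  | .nil, _ => trivial
  | .lab _ F, h => pl_rT F h
  | .split F G, h => ⟨pl_rT F h.1, pl_rT G h.2⟩
  | .tt, _ => trivial
  | .s, h => h

theorem chain_of_ns : ∀ F : AS, pl F → ns F = 0 → F.chain
  | .nil, _, _ => trivial
  | .lab _ F, h, h' => chain_of_ns F h h'
  | .split F G, _, h' => by simp [ns] at h'
  | .tt, h, _ => h.elim
  | .s, h, _ => h.elim

theorem ctx_of_chain : ∀ F : AS, F.chain → ∃ K : ACx, K.plug .nil = F ∧
    (∀ Y, pl Y → pl (K.plug Y)) ∧ ∀ Y, ns (K.plug Y) = ns Y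
  | .nil, _ => ⟨.hole, rfl, fun _ h => h, fun _ => rfl⟩
  | .lab k F, h => by
    obtain ⟨K, h1, h2, h3⟩ := ctx_of_chain F h
    exact ⟨.lab k K, by simp [ACx.plug, h1], fun Y hY => h2 Y hY, fun Y => h3 Y⟩
  | .split F G, h => h.elim
  | .tt, h => h.elim
  | .s, h => h.elim

theorem dec0 : ∀ F : AS, pl F → 0 < ns F → ∃ (C : ACx) (F0 F1 : AS),
    F = C.plug (.split F0 F1) ∧ F0.chain ∧ F1.chain
  | .nil, _, h => by simp [ns] at h
  | .lab k F, hp, h => by
    obtain ⟨C, F0, F1, h1, h2⟩ := dec0 F hp h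
    exact ⟨.lab k C, F0, F1, by simp [ACx.plug, ← h1], h2⟩
  | .split F G, hp, _ => by
    by_cases hF : 0 < ns F
    · obtain ⟨C, F0, F1, h1, h2⟩ := dec0 F hp.1 hF
      exact ⟨.sl C G, F0, F1, by simp [ACx.plug, ← h1], h2⟩
    · by_cases hG : 0 < ns G
      · obtain ⟨C, F0, F1, h1, h2⟩ := dec0 G hp.2 hG
        exact ⟨.sr F C, F0, F1, by simp [ACx.plug, ← h1], h2⟩
      · exact ⟨.hole, F, G, rfl, chain_of_ns F hp.1 (by omega), chain_of_ns G hp.2 (by omega)⟩
  | .tt, _, h => by simp [ns] at h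
  | .s, _, h => by simp [ns] at h

theorem ns_lt (C : ACx) {Y Z : AS} (h : ns Y < ns Z) : ns (C.plug Y) < ns (C.plug Z) := by
  induction C with
  | hole => exact h
  | lab k C ih => exact ih
  | sl C G ih => simp only [ACx.plug, ns]; omega
  | sr F C ih => simp only [ACx.plug, ns]; omega

theorem pl_plug (C : ACx) {Y Z : AS} (h : pl Y) (hZ : pl (C.plug Z)) : pl (C.plug Y) := by
  induction C with
  | hole => exact h
  | lab k C ih => exact ih hZ
  | sl C G ih => exact ⟨ih hZ.1, hZ.2⟩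
  | sr F C ih => exact ⟨hZ.1, ih hZ.2⟩

theorem iter_prop {P : AS → Prop} {K : ACx} (hn : P .nil) (hK : ∀ Y, P Y → P (K.plug Y)) (k : ℕ) :
    P ((K.plug)^[k] .nil) := by
  induction k with
  | zero => exact hn
  | succ k ih => rw [Function.iterate_succ_apply']; exact hK _ ih

theorem base {H : Sh Lab → Prop} (hH : Cl H) (h1 : ∀ F : AS, F.chain → H (F.ex 0)) :
    ∀ (N : ℕ) (F : AS), ns F ≤ N → pl F → H (F.ex 0) := by
  intro N
  induction N with
  | zero => exact fun F hF hp => h1 F (chain_of_ns F hp (by omega))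
  | succ N ih =>
    intro F hF hp
    by_cases h0 : ns F = 0
    · exact h1 F (chain_of_ns F hp h0)
    obtain ⟨C, F0, F1, rfl, c0, c1⟩ := dec0 F hp (by omega)
    obtain ⟨K0, a0, b0, e0⟩ := ctx_of_chain F0 c0
    obtain ⟨K1, a1, b1, e1⟩ := ctx_of_chain F1 c1
    refine split_step hH C K0 K1 F0 F1 (by rw [a0]; exact sub_rfl _) (by rw [a1]; exact sub_rfl _)
      fun k => ?_
    have hns : ns (((K0.comp K1).plug)^[k] .nil) = 0 := by
      refine iter_prop (P := fun Y => ns Y = 0) rfl (fun Y hY => ?_) k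
      rw [plug_comp, e0, e1, hY]
    have hpl : pl (((K0.comp K1).plug)^[k] .nil) := by
      refine iter_prop (P := pl) trivial (fun Y hY => ?_) k
      rw [plug_comp]
      exact b0 _ (b1 _ hY)
    refine ih _ ?_ (pl_plug C hpl hp)
    have := ns_lt C (Y := ((K0.comp K1).plug)^[k] .nil) (Z := .split F0 F1) (by
      rw [hns]; simp [ns])
    omega

/-! ### the step -/

open Classical in
/-- the number of splits both of whose sides contain `q` or `qr` -/
noncomputable def qs : AS → ℕ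
  | .nil => 0
  | .lab _ F => qs F
  | .split F G => qs F + qs G + if (¬ F.noQ ∧ ¬ G.noQ) then 1 else 0
  | .tt => 0
  | .s => 0

theorem tr_noS : ∀ F : AS, F.tr0.noS ∧ F.tr1.noS
  | .nil => ⟨trivial, trivial⟩
  | .lab _ F => ⟨(tr_noS F).1, (tr_noS F).2⟩
  | .split F G => ⟨⟨(tr_noS F).1, (tr_noS G).1⟩, ⟨(tr_noS F).2, (tr_noS G).2⟩⟩
  | .tt => ⟨trivial, trivial⟩
  | .s => ⟨trivial, trivial⟩

theorem ctx_of_qs (n : ℕ) : ∀ F : AS, F.noS → qs F = 0 → ∃ K : ACx,
    Sub (F.ex n) ((K.plug .nil).ex n) ∧ (∀ Y, AS.noS Y → (K.plug Y).noS) ∧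
    (∀ Y, qs (K.plug Y) = qs Y) ∧ (K.plug .s).OkS
  | .nil, _, _ => ⟨.hole, Sub.nil _, fun _ h => h, fun _ => rfl, trivial⟩
  | .lab k F, h, h' => by
    obtain ⟨K, h1, h2, h3, h4⟩ := ctx_of_qs n F h h'
    refine ⟨.lab k K, ?_, fun Y hY => h2 Y hY, fun Y => h3 Y, h4⟩
    simp only [ACx.plug, AS.ex]
    cases k.dir
    · exact Sub.node (fun _ h => h) h1 (sub_rfl _)
    · exact Sub.node (fun _ h => h) (sub_rfl _) h1
  | .split F G, h, h' => by
    simp only [qs] at h'
    have hF : qs F = 0 := by omega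
    have hG : qs G = 0 := by omega
    have hQ : ¬ (¬ F.noQ ∧ ¬ G.noQ) := by
      intro hc
      rw [if_pos hc] at h'
      omega
    by_cases hQG : G.noQ
    · obtain ⟨K, h1, h2, h3, h4⟩ := ctx_of_qs n F h.1 hF
      refine ⟨.sl K G, ?_, fun Y hY => ⟨h2 Y hY, h.2⟩, fun Y => ?_, Or.inl ⟨h4, hQG⟩⟩
      · exact Sub.node (fun _ h => h) h1 (sub_rfl _)
      · simp [ACx.plug, qs, h3, hG, hQG]
    · have hQF : F.noQ := by
        by_contra hc
        exact hQ ⟨hc, hQG⟩
      obtain ⟨K, h1, h2, h3, h4⟩ := ctx_of_qs n G h.2 hG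
      refine ⟨.sr F K, ?_, fun Y hY => ⟨h.1, h2 Y hY⟩, fun Y => ?_, Or.inr ⟨hQF, h4⟩⟩
      · exact Sub.node (fun _ h => h) (sub_rfl _) h1
      · simp [ACx.plug, qs, h3, hF, hQF]
  | .tt, _, _ => ⟨.sr .tt .hole, Sub.left _ (sub_rfl _), fun _ h => ⟨trivial, h⟩,
      fun Y => by simp [ACx.plug, qs, AS.noQ], Or.inr ⟨trivial, trivial⟩⟩
  | .s, h, _ => h.elim

theorem decS : ∀ F : AS, 0 < qs F → ∃ (C : ACx) (F0 F1 : AS),
    F = C.plug (.split F0 F1) ∧ qs F0 = 0 ∧ qs F1 = 0 ∧ ¬ F0.noQ ∧ ¬ F1.noQ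
  | .nil, h => by simp [qs] at h
  | .lab k F, h => by
    obtain ⟨C, F0, F1, h1, h2⟩ := decS F h
    exact ⟨.lab k C, F0, F1, by simp [ACx.plug, ← h1], h2⟩
  | .split F G, h => by
    by_cases hF : 0 < qs F
    · obtain ⟨C, F0, F1, h1, h2⟩ := decS F hF
      exact ⟨.sl C G, F0, F1, by simp [ACx.plug, ← h1], h2⟩
    · by_cases hG : 0 < qs G
      · obtain ⟨C, F0, F1, h1, h2⟩ := decS G hG
        exact ⟨.sr F C, F0, F1, by simp [ACx.plug, ← h1], h2⟩
      · simp only [qs] at h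
        have hQ : ¬ F.noQ ∧ ¬ G.noQ := by
          by_contra hc
          rw [if_neg hc] at h
          omega
        exact ⟨.hole, F, G, rfl, by omega, by omega, hQ⟩
  | .tt, h => by simp [qs] at h
  | .s, h => by simp [qs] at h

theorem noQ_plug (C : ACx) {Z : AS} (h : ¬ Z.noQ) : ¬ (C.plug Z).noQ := by
  induction C with
  | hole => exact h
  | lab k C ih => exact fun hc => ih hc.2.2
  | sl C G ih => exact fun hc => ih hc.1
  | sr F C ih => exact fun hc => ih hc.2

theorem qs_lt (C : ACx) {Y Z : AS} (hZ : ¬ Z.noQ) (h : qs Y < qs Z) :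
    qs (C.plug Y) < qs (C.plug Z) := by
  induction C with
  | hole => exact h
  | lab k C ih => exact ih
  | sl C G ih =>
    simp only [ACx.plug, qs]
    have h1 := noQ_plug C hZ
    split_ifs with a b
    · omega
    · exact absurd ⟨h1, a.2⟩ b
    · omega
    · omega
  | sr F C ih =>
    simp only [ACx.plug, qs]
    have h1 := noQ_plug C hZ
    split_ifs with a b
    · omega
    · exact absurd ⟨a.1, h1⟩ b
    · omega
    · omega

theorem noS_plug (C : ACx) {Y Z : AS} (h : Y.noS) (hZ : (C.plug Z).noS) : (C.plug Y).noS := by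
  induction C with
  | hole => exact h
  | lab k C ih => exact ih hZ
  | sl C G ih => exact ⟨ih hZ.1, hZ.2⟩
  | sr F C ih => exact ⟨hZ.1, ih hZ.2⟩

theorem noS_arg (C : ACx) {Z : AS} (hZ : (C.plug Z).noS) : Z.noS := by
  induction C with
  | hole => exact hZ
  | lab k C ih => exact ih hZ
  | sl C G ih => exact ih hZ.1
  | sr F C ih => exact ih hZ.2

theorem step {n : ℕ} {H : Sh Lab → Prop} (hH : Cl H)
    (h1 : ∀ E : AS, E.OkS → H (E.ex n)) :
    ∀ (N : ℕ) (F : AS), qs F ≤ N → F.noS → H (F.ex n) := by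
  have h0 : ∀ F : AS, qs F = 0 → F.noS → H (F.ex n) := by
    intro F hF hS
    obtain ⟨K, a1, -, -, a4⟩ := ctx_of_qs n F hS hF
    refine hH.sub a1 (hH.sub ?_ (h1 _ a4))
    rw [ex_plug, ex_plug]
    exact plug_mono _ (Sub.nil _)
  intro N
  induction N with
  | zero => exact fun F hF hp => h0 F (by omega) hp
  | succ N ih =>
    intro F hF hS
    by_cases hF0 : qs F = 0
    · exact h0 F hF0 hS
    obtain ⟨C, F0, F1, rfl, q0, q1, n0, n1⟩ := decS F (by omega)
    have hS' := noS_arg C hS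
    obtain ⟨K0, a0, b0, e0, -⟩ := ctx_of_qs n F0 hS'.1 q0
    obtain ⟨K1, a1, b1, e1, -⟩ := ctx_of_qs n F1 hS'.2 q1
    refine split_step hH C K0 K1 F0 F1 a0 a1 fun k => ?_
    have hqs : qs (((K0.comp K1).plug)^[k] .nil) = 0 := by
      refine iter_prop (P := fun Y => qs Y = 0) rfl (fun Y hY => ?_) k
      rw [plug_comp, e0, e1, hY]
    have hnS : (((K0.comp K1).plug)^[k] .nil).noS := by
      refine iter_prop (P := AS.noS) trivial (fun Y hY => ?_) k
      rw [plug_comp]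
      exact b0 _ (b1 _ hY)
    refine ih _ ?_ (noS_plug C hnS hS)
    have := qs_lt C (Y := ((K0.comp K1).plug)^[k] .nil) (Z := .split F0 F1)
      (fun hc => n0 hc.1) (by rw [hqs]; simp [qs, n0, n1])
    omega

theorem t_COMB : S_COMB := by
  intro G hG h1 h2 h3 n
  induction n with
  | zero => exact fun F hF => h2 F (base (hG 0) h1 _ F.rT le_rfl (pl_rT F hF))
  | succ n ih =>
    exact fun F hF => step (hG (n + 1)) (fun E hE => h3 n E hE (ih _ (tr_noS E).1)
      (ih _ (tr_noS E).2)) _ F le_rfl hF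

end Pool.Agent.K1H6.PL
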